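import Pool.Agent.H20.GKKEx
import Pool.Agent.H20.GKKLow

open scoped ComplexOrder
open Pool.Agent.H20.GKK

namespace Pool.Agent.Results.MP_f9eabf_al.Four

theorem result : IsGreatest {N : ℕ | ∀ n : ℕ, 1 ≤ n → n ≤ N →
    ∀ A : Matrix (Fin n) (Fin n) ℂ, IsGKK A → IsTau A → IsStable A} 4 := by
  refine ⟨fun n _ hn A h _ => stab_le hn A h, fun N hN => ?_⟩
  by_contra h
  exact unstable5 (hN 5 (by norm_num) (by omega) _
    ⟨gkk5.1, fun k f g a b c => (gkk5.2 k f g a b c).le⟩ tau5)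

end Pool.Agent.Results.MP_f9eabf_al.Four
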